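import Pool.Agent.Helper57.SS.Goals

/-!
# Packet SS-E3: the averages of the pairs are asymptotically independent
-/

open MeasureTheory Filter Topology

namespace Pool.Agent.Helper34.SS

open Pool.Agent.Helper57.SS

theorem integrable_of_bd {α : Type*} [MeasurableSpace α] (μ : Measure α) [IsProbabilityMeasure μ]
    (f : α → ℝ) (hf : Bd f) : Integrable f μ :=
  Integrable.of_bound hf.1.aestronglyMeasurable 1
    (ae_of_all _ fun x => by rw [Real.norm_eq_abs]; exact hf.2 x)

theorem bd_mul {α : Type*} [MeasurableSpace α] {f g : α → ℝ} (hf : Bd f) (hg : Bd g) :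
    Bd (fun x => f x * g x) :=
  ⟨hf.1.mul hg.1, fun x => by
    rw [abs_mul]
    exact mul_le_one₀ (hf.2 x) (abs_nonneg _) (hg.2 x)⟩

theorem bd_comp {α : Type*} [MeasurableSpace α] {f : α → ℝ} (hf : Bd f) {u : α → α}
    (hu : Measurable u) : Bd (fun x => f (u x)) :=
  ⟨hf.1.comp hu, fun x => hf.2 (u x)⟩

/-- a bounded factor times a sequence which tends to `0` in `L²` -/
theorem tendsto_integral_mul {α : Type*} [MeasurableSpace α] (μ : Measure α)
    [IsProbabilityMeasure μ] (F : α → ℝ) (hF : Bd F) (H : ℕ → α → ℝ)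
    (hm : ∀ n, Measurable (H n)) (hH : Tendsto (fun n => eLpNorm (H n) 2 μ) atTop (𝓝 0)) :
    Tendsto (fun n => ∫ x, F x * H n x ∂μ) atTop (𝓝 0) := by
  rw [tendsto_zero_iff_enorm_tendsto_zero]
  refine tendsto_of_tendsto_of_tendsto_of_le_of_le tendsto_const_nhds hH (fun n => zero_le) ?_
  intro n
  calc ‖∫ x, F x * H n x ∂μ‖ₑ ≤ ∫⁻ x, ‖F x * H n x‖ₑ ∂μ := enorm_integral_le_lintegral_enorm _
    _ ≤ ∫⁻ x, ‖H n x‖ₑ ∂μ := by
        apply lintegral_mono
        intro x
        simp only [enorm_mul]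
        have h1 : ‖F x‖ₑ ≤ 1 := by
          rw [← ofReal_norm_eq_enorm, Real.norm_eq_abs]
          exact ENNReal.ofReal_le_one.2 (hF.2 x)
        calc ‖F x‖ₑ * ‖H n x‖ₑ ≤ 1 * ‖H n x‖ₑ := by gcongr
          _ = ‖H n x‖ₑ := one_mul _
    _ = eLpNorm (H n) 1 μ := eLpNorm_one_eq_lintegral_enorm.symm
    _ ≤ eLpNorm (H n) 2 μ := eLpNorm_le_eLpNorm_of_exponent_le (by norm_num)
        (hm n).aestronglyMeasurable

theorem gE3 : G_E3 := by
  intro hEL hHZ hZP hVN a b hW α _ μ _ T S hT hS hTS F G hF hG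
  have hcomm : ∀ x, T.symm (S x) = S (T.symm x) := by
    intro x
    apply T.injective
    rw [MeasurableEquiv.apply_symm_apply, hTS, MeasurableEquiv.apply_symm_apply]
  have hG2 : MemLp G 2 μ := MemLp.of_bound hG.1.aestronglyMeasurable 1
    (ae_of_all _ fun x => by rw [Real.norm_eq_abs]; exact hG.2 x)
  have hEL1 := hEL hHZ hZP hVN a b hW α μ T.symm S hT.symm hS.toMeasurePreserving hcomm G hG2
  have hmk : ∀ k, Measurable (fun x => G ((⇑T.symm)^[a k] ((⇑S)^[b k] x))) := fun k =>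
    hG.1.comp ((T.symm.measurable.iterate _).comp (S.measurable.iterate _))
  have hmH : ∀ N : ℕ, Measurable (fun x => (N : ℝ)⁻¹ * ∑ k ∈ Finset.range N,
      G ((⇑T.symm)^[a k] ((⇑S)^[b k] x)) - ∫ y, G y ∂μ) := fun N =>
    ((Finset.measurable_fun_sum _ fun k _ => hmk k).const_mul _).sub_const _
  have h1 := tendsto_integral_mul μ F hF _ hmH hEL1
  have hbk : ∀ k, Bd (fun x => F x * G ((⇑T.symm)^[a k] ((⇑S)^[b k] x))) := fun k =>
    bd_mul hF (bd_comp hG ((T.symm.measurable.iterate _).comp (S.measurable.iterate _)))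
  have h2 : ∀ N : ℕ, ∫ x, F x * ((N : ℝ)⁻¹ * ∑ k ∈ Finset.range N,
      G ((⇑T.symm)^[a k] ((⇑S)^[b k] x)) - ∫ y, G y ∂μ) ∂μ =
      (N : ℝ)⁻¹ * ∑ k ∈ Finset.range N, ∫ x, F ((⇑T)^[a k] x) * G ((⇑S)^[b k] x) ∂μ -
        (∫ x, F x ∂μ) * ∫ x, G x ∂μ := by
    intro N
    have h3 : ∀ x, F x * ((N : ℝ)⁻¹ * ∑ k ∈ Finset.range N,
        G ((⇑T.symm)^[a k] ((⇑S)^[b k] x)) - ∫ y, G y ∂μ) =
        (N : ℝ)⁻¹ * (∑ k ∈ Finset.range N, F x * G ((⇑T.symm)^[a k] ((⇑S)^[b k] x))) -
          F x * ∫ y, G y ∂μ := by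
      intro x
      rw [mul_sub, ← Finset.mul_sum]
      ring
    simp only [h3]
    rw [integral_sub, integral_const_mul, integral_finset_sum, integral_mul_const]
    · congr 2
      apply Finset.sum_congr rfl
      intro k _
      have hmp : MeasurePreserving ((⇑T.symm)^[a k]) μ μ :=
        (hT.symm.toMeasurePreserving).iterate _
      have hcit : ∀ x, (⇑T.symm)^[a k] ((⇑S)^[b k] x) = (⇑S)^[b k] ((⇑T.symm)^[a k] x) := by
        intro x
        exact (Function.Commute.iterate_iterate (fun y => hcomm y) (a k) (b k)) x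
      have hinv : ∀ x, (⇑T)^[a k] ((⇑T.symm)^[a k] x) = x := by
        intro x
        exact (Function.LeftInverse.iterate T.apply_symm_apply (a k)) x
      have hmm : Measurable (fun x => F ((⇑T)^[a k] x) * G ((⇑S)^[b k] x)) :=
        (hF.1.comp (T.measurable.iterate _)).mul (hG.1.comp (S.measurable.iterate _))
      conv_rhs => rw [← hmp.map_eq]
      rw [integral_map hmp.measurable.aemeasurable hmm.aestronglyMeasurable]
      congr 1
      ext x
      rw [hinv, hcit]
    · intro k _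
      exact integrable_of_bd μ _ (hbk k)
    · exact (integrable_finset_sum _ fun k _ => integrable_of_bd μ _ (hbk k)).const_mul _
    · exact (integrable_of_bd μ _ hF).mul_const _
  simp only [h2] at h1
  have h4 := h1.add_const ((∫ x, F x ∂μ) * ∫ x, G x ∂μ)
  simpa using h4

end Pool.Agent.Helper34.SS
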