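import Pool.Agent.Helper57.SS.Goals

/-!
# Packet SS-SPZ: the spectral measure at negative integers
-/

open MeasureTheory Filter Topology

namespace Pool.Agent.Helper34.SS

open Pool.Agent.Helper57.SS

theorem gSPZ : G_SPZ := by
  intro hZ α _ μ _ R hR f hf σ hσ
  obtain ⟨z0, zn, zneg, zadd, zmeas, zmp, -⟩ := hZ α R
  obtain ⟨hfin, hsp⟩ := hσ
  have hpos : ∀ n : ℕ, ∫ z, fourier (n : ℤ) z ∂σ = ((rr R μ f (n : ℤ) : ℝ) : ℂ) := by
    intro n
    rw [hsp n]
    simp only [rr, zn]
  have heven : ∀ n : ℕ, rr R μ f (-(n : ℤ)) = rr R μ f (n : ℤ) := by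
    intro n
    have hmp := zmp μ hR (n : ℤ)
    have hm : Measurable (fun x => f (zp R (-(n : ℤ)) x) * f x) :=
      (hf.1.comp (zmeas _)).mul hf.1
    unfold rr
    conv_lhs => rw [← hmp.map_eq]
    rw [integral_map (zmeas _).aemeasurable hm.aestronglyMeasurable]
    congr 1
    ext x
    rw [← zadd, neg_add_cancel, z0]
    ring
  intro m
  obtain ⟨n, rfl | rfl⟩ := Int.eq_nat_or_neg m
  · exact hpos n
  · rw [heven n]
    have h1 : ∀ z : Ci, fourier (-(n : ℤ)) z = (starRingEnd ℂ) (fourier (n : ℤ) z) := by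
      intro z
      exact fourier_neg
    simp only [h1]
    rw [integral_conj, hpos n, Complex.conj_ofReal]

end Pool.Agent.Helper34.SS
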